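import Mathlib

/-!
# Project UB (helper25): Kovari-Sos-Turan for difference graphs
-/

set_option autoImplicit false

namespace Pool.Agent.W688.UB.KST

open Finset Filter Topology

theorem sum_deg (L : ℕ) (u : ℤ) (X : Finset ℤ) (hX : ∀ x ∈ X, u < x ∧ x ≤ u + L) :
    ∑ b ∈ Ioc u (u + 2 * L), ((Ico (0 : ℤ) L).filter (fun a => b - a ∈ X)).card = L * X.card := by
  have h := Finset.sum_card_bipartiteAbove_eq_sum_card_bipartiteBelow
    (s := Ioc u (u + 2 * L)) (t := Ico (0 : ℤ) L) (fun b a => b - a ∈ X)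
  unfold Finset.bipartiteAbove Finset.bipartiteBelow at h
  rw [h]
  have h1 : ∀ a ∈ Ico (0 : ℤ) L, ((Ioc u (u + 2 * L)).filter (fun b => b - a ∈ X)).card = X.card := by
    intro a ha
    rw [Finset.mem_Ico] at ha
    refine Finset.card_bij (fun b _ => b - a) ?_ ?_ ?_
    · intro b hb
      exact (Finset.mem_filter.1 hb).2
    · intro b _ b' _ hbb
      simpa using hbb
    · intro x hx
      refine ⟨x + a, ?_, by ring⟩
      rw [Finset.mem_filter, Finset.mem_Ioc]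
      have := hX x hx
      refine ⟨⟨by omega, by omega⟩, ?_⟩
      rw [add_sub_cancel_right]
      exact hx
  rw [Finset.sum_congr rfl h1, Finset.sum_const, Int.card_Ico]
  simp

theorem sum_pow (K L : ℕ) (u : ℤ) (X : Finset ℤ)
    (hN : ∀ S ∈ powersetCard K (Ico (0 : ℤ) L),
      ((Ioc u (u + 2 * L)).filter (fun b => ∀ a ∈ S, b - a ∈ X)).card ≤ K - 1) :
    ∑ b ∈ Ioc u (u + 2 * L),
      (((Ico (0 : ℤ) L).filter (fun a => b - a ∈ X)).card + 1 - K) ^ K ≤ (K - 1) * L ^ K := by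
  have h := Finset.sum_card_bipartiteAbove_eq_sum_card_bipartiteBelow
    (s := Ioc u (u + 2 * L)) (t := powersetCard K (Ico (0 : ℤ) L)) (fun b S => ∀ a ∈ S, b - a ∈ X)
  unfold Finset.bipartiteAbove Finset.bipartiteBelow at h
  have h1 : ∀ b ∈ Ioc u (u + 2 * L),
      ((powersetCard K (Ico (0 : ℤ) L)).filter (fun S => ∀ a ∈ S, b - a ∈ X)).card =
      (((Ico (0 : ℤ) L).filter (fun a => b - a ∈ X)).card).choose K := by
    intro b _
    rw [← Finset.card_powersetCard]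
    congr 1
    ext S
    simp only [Finset.mem_filter, Finset.mem_powersetCard, Finset.subset_iff]
    constructor
    · rintro ⟨⟨h1, h2⟩, h3⟩
      exact ⟨fun a ha => ⟨h1 ha, h3 a ha⟩, h2⟩
    · rintro ⟨h1, h2⟩
      exact ⟨⟨fun a ha => (h1 ha).1, h2⟩, fun a ha => (h1 ha).2⟩
  rw [Finset.sum_congr rfl h1] at h
  have h2 : ∑ b ∈ Ioc u (u + 2 * L),
      (((Ico (0 : ℤ) L).filter (fun a => b - a ∈ X)).card + 1 - K) ^ K ≤
      K.factorial * ∑ b ∈ Ioc u (u + 2 * L),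
      (((Ico (0 : ℤ) L).filter (fun a => b - a ∈ X)).card).choose K := by
    rw [Finset.mul_sum]
    refine Finset.sum_le_sum fun b _ => ?_
    rw [← Nat.descFactorial_eq_factorial_mul_choose]
    exact Nat.pow_sub_le_descFactorial _ _
  refine h2.trans ?_
  rw [h]
  have h3 := Finset.sum_le_sum hN
  rw [Finset.sum_const, Finset.card_powersetCard, Int.card_Ico, smul_eq_mul] at h3
  have h4 : ((L : ℤ) - 0).toNat = L := by simp
  rw [h4] at h3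
  refine (Nat.mul_le_mul_left _ h3).trans ?_
  rw [← mul_assoc, ← Nat.descFactorial_eq_factorial_mul_choose, mul_comm]
  exact Nat.mul_le_mul_left _ (Nat.descFactorial_le_pow _ _)

theorem core : ∀ K : ℕ, 1 ≤ K → ∃ C₁ : ℝ, 0 < C₁ ∧ ∀ (L : ℕ) (u : ℤ) (X : Finset ℤ), 1 ≤ L →
    (∀ x ∈ X, u < x ∧ x ≤ u + L) → C₁ * (L : ℝ) ^ (1 - 1 / (K : ℝ)) < X.card →
    ∃ S₁ S₂ : Finset ℤ, S₁.card = K ∧ S₂.card = K ∧ (∀ s ∈ S₁, 0 ≤ s ∧ s < L) ∧
      (∀ s ∈ S₂, u ≤ s ∧ s ≤ u + 2 * L) ∧ ∀ s ∈ S₁, ∀ s' ∈ S₂, s' - s ∈ X := by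
  intro K hK
  obtain ⟨m, rfl⟩ : ∃ m, K = m + 1 := ⟨K - 1, by omega⟩
  refine ⟨4 * ((m : ℝ) + 1), by positivity, ?_⟩
  intro L u X hL hX hc
  by_contra hcon
  have hN : ∀ S ∈ powersetCard (m + 1) (Ico (0 : ℤ) L),
      ((Ioc u (u + 2 * L)).filter (fun b => ∀ a ∈ S, b - a ∈ X)).card ≤ (m + 1) - 1 := by
    intro S hS
    by_contra hlt
    push Not at hlt
    obtain ⟨S₂, hS₂, hcard⟩ := Finset.exists_subset_card_eq (n := m + 1) (by omega :
      m + 1 ≤ ((Ioc u (u + 2 * L)).filter (fun b => ∀ a ∈ S, b - a ∈ X)).card)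
    rw [Finset.mem_powersetCard] at hS
    apply hcon
    refine ⟨S, S₂, hS.2, hcard, ?_, ?_, ?_⟩
    · intro s hs
      exact Finset.mem_Ico.1 (hS.1 hs)
    · intro s hs
      have := Finset.mem_Ioc.1 (Finset.mem_filter.1 (hS₂ hs)).1
      exact ⟨this.1.le, this.2⟩
    · intro s hs s' hs'
      exact (Finset.mem_filter.1 (hS₂ hs')).2 s hs
  have h1 := sum_deg L u X hX
  have h2 := sum_pow (m + 1) L u X hN
  obtain ⟨d, hd⟩ : ∃ d : ℤ → ℕ, d = fun b => ((Ico (0 : ℤ) L).filter (fun a => b - a ∈ X)).card :=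
    ⟨_, rfl⟩
  have h1' : ∑ b ∈ Ioc u (u + 2 * L), d b = L * X.card := by rw [hd]; exact h1
  have h2' : ∑ b ∈ Ioc u (u + 2 * L), (d b - m) ^ (m + 1) ≤ m * L ^ (m + 1) := by
    rw [hd]
    simpa using h2
  have hT : (Ioc u (u + 2 * L)).card = 2 * L := by
    rw [Int.card_Ioc]
    omega
  have h3 : L * X.card ≤ (∑ b ∈ Ioc u (u + 2 * L), (d b - m)) + 2 * L * m := by
    have e1 : 2 * L * m = ∑ b ∈ Ioc u (u + 2 * (L : ℤ)), m := by
      rw [Finset.sum_const, hT, smul_eq_mul]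
    rw [← h1', e1, ← Finset.sum_add_distrib]
    exact Finset.sum_le_sum fun b _ => by omega
  obtain ⟨P, hP⟩ : ∃ P : ℝ, P = ∑ b ∈ Ioc u (u + 2 * L), ((d b - m : ℕ) : ℝ) := ⟨_, rfl⟩
  have h4 : P ^ (m + 1) / ((2 * L : ℕ) : ℝ) ^ m ≤ ∑ b ∈ Ioc u (u + 2 * L),
      ((d b - m : ℕ) : ℝ) ^ (m + 1) := by
    rw [hP, ← hT]
    exact pow_sum_div_card_le_sum_pow (fun b _ => Nat.cast_nonneg _) m
  have h5 : ∑ b ∈ Ioc u (u + 2 * L), ((d b - m : ℕ) : ℝ) ^ (m + 1) ≤ m * (L : ℝ) ^ (m + 1) := by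
    exact_mod_cast h2'
  have h3' : (L : ℝ) * X.card ≤ P + 2 * L * m := by
    rw [hP]
    exact_mod_cast h3
  have hLpos : (1 : ℝ) ≤ L := by exact_mod_cast hL
  have hm : (0 : ℝ) ≤ m := Nat.cast_nonneg m
  obtain ⟨y, hy⟩ : ∃ y : ℝ, y = (L : ℝ) ^ (1 - 1 / ((m + 1 : ℕ) : ℝ)) := ⟨_, rfl⟩
  have hy1 : 1 ≤ y := by
    rw [hy]
    apply Real.one_le_rpow hLpos
    rw [sub_nonneg, div_le_one (by positivity)]
    push_cast
    linarith
  have hyK : y ^ (m + 1) = (L : ℝ) ^ m := by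
    rw [hy, ← Real.rpow_natCast, ← Real.rpow_mul (by linarith)]
    rw [← Real.rpow_natCast (L : ℝ) m]
    congr 1
    push_cast
    field_simp
    ring
  rw [← hy] at hc
  have h6 : 2 * ((m : ℝ) + 1) * L * y < P := by
    have e1 : (L : ℝ) * (4 * ((m : ℝ) + 1) * y) < L * X.card :=
      mul_lt_mul_of_pos_left hc (by linarith)
    have e2 : (L : ℝ) * m * 1 ≤ L * m * y := mul_le_mul_of_nonneg_left hy1 (by positivity)
    have e3 : 0 < (L : ℝ) * y := by positivity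
    nlinarith
  have h7 : (2 * ((m : ℝ) + 1) * L * y) ^ (m + 1) < P ^ (m + 1) :=
    pow_lt_pow_left₀ h6 (by positivity) (by omega)
  have h8 : P ^ (m + 1) ≤ (m * (L : ℝ) ^ (m + 1)) * (2 * (L : ℝ)) ^ m := by
    have := h4.trans h5
    rw [div_le_iff₀ (by positivity)] at this
    push_cast at this
    exact this
  have h9 : (2 * ((m : ℝ) + 1) * L * y) ^ (m + 1) =
      2 ^ (m + 1) * ((m : ℝ) + 1) ^ (m + 1) * ((L : ℝ) ^ (m + 1) * (L : ℝ) ^ m) := by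
    rw [mul_pow, mul_pow, mul_pow, hyK]
    ring
  have h10 : (m * (L : ℝ) ^ (m + 1)) * (2 * (L : ℝ)) ^ m =
      2 ^ m * m * ((L : ℝ) ^ (m + 1) * (L : ℝ) ^ m) := by
    rw [mul_pow]; ring
  rw [h9] at h7
  rw [h10] at h8
  have h11 : (2 : ℝ) ^ m * m ≤ 2 ^ (m + 1) * ((m : ℝ) + 1) ^ (m + 1) := by
    have e1 : (1 : ℝ) ≤ ((m : ℝ) + 1) ^ m := one_le_pow₀ (by linarith)
    have e2 : (m : ℝ) ≤ ((m : ℝ) + 1) ^ (m + 1) := by
      rw [pow_succ]
      nlinarith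
    have e3 : (2 : ℝ) ^ m ≤ 2 ^ (m + 1) := pow_le_pow_right₀ (by norm_num) (by omega)
    exact mul_le_mul e3 e2 hm (by positivity)
  have h12 : 0 ≤ (L : ℝ) ^ (m + 1) * (L : ℝ) ^ m := by positivity
  have h13 := mul_le_mul_of_nonneg_right h11 h12
  linarith

end Pool.Agent.W688.UB.KST
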