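import Pool.Agent.W25.UB.Stm6
import Pool.Agent.W688.UB.KSTCore

/-!
# Project UB (helper25): Kovari-Sos-Turan for difference graphs
-/

set_option autoImplicit false

namespace Pool.Agent.W688.UB.KST

theorem main : Pool.Agent.W25.UB.St_KST := core

end Pool.Agent.W688.UB.KST
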