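import Pool.Agent.W275.UB.Stm2
import Pool.Agent.W925.UB.Theta

/-! UB2-THETA2 (project of helper275, MP_13bc7b_nt): generic `p`-adic integers close to given
ones. -/

set_option autoImplicit false

namespace Pool.Agent.W688.UB.Theta2

open MvPolynomial Filter Topology Pool.Agent.W275.UB

theorem main : S_theta2 := by
  intro p _ ι _ a M
  classical
  have hmap : ∀ (θ : ι → ℤ_[p]) (c : MvPolynomial ι ℤ),
      aeval θ c = eval θ (MvPolynomial.map (Int.castRingHom ℤ_[p]) c) := by
    intro θ c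
    rw [aeval_def, eval₂_eq_eval_map]
    congr 2
  have hopen : ∀ c : {c : MvPolynomial ι ℤ // c ≠ 0},
      IsOpen {θ : ι → ℤ_[p] | aeval θ c.1 ≠ 0} := by
    intro c
    simp only [hmap]
    exact isOpen_ne_fun (MvPolynomial.continuous_eval _) continuous_const
  have hdense : ∀ c : {c : MvPolynomial ι ℤ // c ≠ 0},
      Dense {θ : ι → ℤ_[p] | aeval θ c.1 ≠ 0} := by
    intro c
    rw [dense_iff_inter_open]
    rintro W hW ⟨θ₀, hθ₀⟩
    obtain ⟨u, hu, hsub⟩ := isOpen_pi_iff'.1 hW θ₀ hθ₀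
    have hinf : ∀ i, (u i).Infinite := by
      intro i
      have := Pool.Agent.W925.UB.Theta.nebot p (θ₀ i)
      exact infinite_of_mem_nhds (θ₀ i) ((hu i).1.mem_nhds (hu i).2)
    by_contra hcon
    apply c.2
    have h1 : MvPolynomial.map (Int.castRingHom ℤ_[p]) c.1 = 0 := by
      refine MvPolynomial.funext_set u hinf (fun x hx => ?_)
      rw [map_zero]
      by_contra h2
      exact hcon ⟨x, hsub hx, by rw [Set.mem_ofPred_eq, hmap]; exact h2⟩
    have h3 := MvPolynomial.map_injective (σ := ι) (Int.castRingHom ℤ_[p])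
      (RingHom.injective_int _)
    exact h3 (by rw [h1, map_zero])
  have : Countable (MvPolynomial ι ℤ) := by
    rw [← Cardinal.mk_le_aleph0_iff]
    refine MvPolynomial.cardinalMk_le_max.trans ?_
    exact sup_le (sup_le Cardinal.mk_le_aleph0 Cardinal.mk_le_aleph0) le_rfl
  have hD := dense_iInter_of_isOpen hopen hdense
  have hp0 : (0 : ℝ) < (p : ℝ) ^ (-(M : ℤ)) := by
    have : (0 : ℝ) < p := by exact_mod_cast (Fact.out : p.Prime).pos
    positivity
  have hO : IsOpen {θ : ι → ℤ_[p] | ∀ i, ‖θ i - a i‖ < (p : ℝ) ^ (-(M : ℤ))} := by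
    simp only [Set.ofPred_forall]
    exact isOpen_iInter_of_finite fun i => isOpen_lt (by fun_prop) continuous_const
  obtain ⟨θ, hθ1, hθ2⟩ := hD.inter_open_nonempty _ hO ⟨a, by
    intro i
    rw [sub_self, norm_zero]
    exact hp0⟩
  refine ⟨θ, fun i => ?_, fun c hc => ?_⟩
  · have := (hθ1 i).le
    rw [PadicInt.norm_le_pow_iff_mem_span_pow, Ideal.mem_span_singleton] at this
    exact this
  · have := Set.mem_iInter.1 hθ2 ⟨c, hc⟩
    exact this

end Pool.Agent.W688.UB.Theta2
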