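import Pool.Agent.W275.UB.Stm2
import Pool.Agent.W554.UB.Lmn

/-! UB2-LMN2 (project of helper275, MP_13bc7b_nt): local models for number fields, coefficients
in an order. -/

set_option autoImplicit false

namespace Pool.Agent.W688.UB.Lmn2

open MvPolynomial Pool.Agent.W275.UB H294UB Pool.Agent.W554.UB

theorem main : S_lmn2 := by
  intro D p V O J ι _ _ _ _ ω c₁ c₂ n₁ n₂ hn1 hn2 K _ _ σ hD hp w h₁ h₂
  obtain ⟨A, _, _, _, _, _, π, hπ, hd, hq, hj⟩ := taskNF K D hD p hp
  have himg : ∀ x : O, ∃ a : A, algebraMap A K a = σ x := by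
    intro x
    have : Module.Finite ℤ O := Module.Finite.of_basis ω
    have h0 : IsIntegral ℤ x := Algebra.IsIntegral.isIntegral x
    have h1 : IsIntegral ℤ (σ x) := h0.map σ.toIntAlgHom
    have h2 : IsIntegral A (σ x) := h1.tower_top
    exact IsIntegrallyClosed.isIntegral_iff.1 h2
  have hinj : Function.Injective (algebraMap A K) := IsFractionRing.injective A K
  choose f hf using himg
  let σA : O →+* A :=
    { toFun := f
      map_one' := hinj (by rw [hf, map_one, map_one])
      map_mul' := fun x y => hinj (by rw [hf, map_mul, map_mul, hf, hf])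
      map_zero' := hinj (by rw [hf, map_zero, map_zero])
      map_add' := fun x y => hinj (by rw [hf, map_add, map_add, hf, hf]) }
  have hσA : ∀ x, algebraMap A K (σA x) = σ x := hf
  have d1 := hn1 A σA (fun q => (w q : A))
  have d2 := hn2 A σA (fun q => (w q : A))
  rw [aeval_cast] at d1 d2
  refine ⟨K, inferInstance, RingHom.id K, A, inferInstance, inferInstance, inferInstance,
    inferInstance, inferInstance, π, cv (fun j => σA (ω j)) (fun q => (w q : A)), hπ, hd,
    ?_, ?_, ?_, hj⟩
  · intro i
    unfold cv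
    rw [map_sum, RingHom.id_apply]
    refine Finset.sum_congr rfl fun j _ => ?_
    rw [map_mul, hσA, map_intCast]
  · exact isUnit_of_dvd_unit d1 (unit_of_not_dvd hπ hp hd h₁)
  · intro h
    exact not_dvd_of hπ hp hd (hq p hp) h₂ (h.trans d2)

end Pool.Agent.W688.UB.Lmn2
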